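import Mathlib

set_option autoImplicit false

/-!
In a countable locally finite group, two sets `A`, `B` of Banach density arbitrarily close to `1`
and equal to `1`, such that `A B⁻¹` is not piecewise syndetic.
-/

namespace Pool.Agent.Results.MP_b01501_co.NotPiecewiseSyndetic

open scoped symmDiff

section defs

variable {G : Type} [Group G]

/-- The finite set `K` is nonempty and `|hK ∆ K| < ε |K|` for all `h ∈ H`. -/
def IsInvariant (H : Finset G) (ε : ℝ) (K : Finset G) : Prop :=
  K.Nonempty ∧ ∀ h ∈ H,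
    ((((fun x => h * x) '' (K : Set G)) ∆ (K : Set G)).ncard : ℝ) < ε * (K.card : ℝ)

/-- The Følner condition. -/
def Amenable (G : Type) [Group G] : Prop :=
  ∀ (H : Finset G) (ε : ℝ), 0 < ε → ∃ K : Finset G, IsInvariant H ε K

/-- The upper Banach density. -/
noncomputable def density (A : Set G) : ℝ :=
  sSup {α : ℝ | ∀ (H : Finset G) (ε : ℝ), 0 < ε →
    ∃ K : Finset G, IsInvariant H ε K ∧ α * (K.card : ℝ) ≤ ((A ∩ (K : Set G)).ncard : ℝ)}

/-- `A` is thick: it contains a right translate of every finite set. -/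
def Thick (A : Set G) : Prop := ∀ H : Finset G, ∃ x : G, ∀ h ∈ H, h * x ∈ A

/-- `A` is piecewise `k`-syndetic: `F A` is thick for some `F` with at most `k` elements. -/
def PiecewiseSyndetic (k : ℕ) (A : Set G) : Prop :=
  ∃ F : Finset G, F.card ≤ k ∧ Thick {y | ∃ f ∈ F, ∃ a ∈ A, y = f * a}

/-- The set `A B⁻¹`. -/
def mulInv (A B : Set G) : Set G := {g | ∃ a ∈ A, ∃ b ∈ B, g = a * b⁻¹}

end defs

/-- The statement Q1. -/
def Q1 : Prop := ∀ (G : Type) [Group G], Amenable G → ∀ A B : Set G,
  0 < density A → 0 < density B →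
    PiecewiseSyndetic ⌊1 / (density A * density B)⌋₊ (mulInv A B)

section group

/-- The elementary abelian `2`-group of countable rank. -/
abbrev T := ℕ →₀ ZMod 2

/-- The positions of the lamps. -/
abbrev Pos := T × ℕ × ℕ

/-- Translation of positions. -/
noncomputable def tr (s : T) : Pos ≃ Pos := (Equiv.addRight s).prodCongr (Equiv.refl _)

/-- The wreath product of `⊕_{ℕ × ℕ} ℤ/2` by `T`. -/
@[ext] structure Lamp where
  /-- the lamps -/
  v : Pos →₀ ZMod 2
  /-- the position of the lamplighter -/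
  t : T

/-- The shift. -/
noncomputable def sh (s : T) (v : Pos →₀ ZMod 2) : Pos →₀ ZMod 2 :=
  Finsupp.equivMapDomain (tr s) v

theorem sh_apply (s : T) (v : Pos →₀ ZMod 2) (x : T) (p : ℕ × ℕ) :
    sh s v (x, p) = v (x - s, p) := by
  simp [sh, tr, Finsupp.equivMapDomain_apply, sub_eq_add_neg]

noncomputable instance : Mul Lamp := ⟨fun g h => ⟨g.v + sh g.t h.v, g.t + h.t⟩⟩
noncomputable instance : One Lamp := ⟨⟨0, 0⟩⟩
noncomputable instance : Inv Lamp := ⟨fun g => ⟨-(sh (-g.t) g.v), -g.t⟩⟩

theorem mul_v (g h : Lamp) : (g * h).v = g.v + sh g.t h.v := rfl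
theorem mul_t (g h : Lamp) : (g * h).t = g.t + h.t := rfl
theorem one_v : (1 : Lamp).v = 0 := rfl
theorem one_t : (1 : Lamp).t = 0 := rfl
theorem inv_v (g : Lamp) : (g⁻¹).v = -(sh (-g.t) g.v) := rfl
theorem inv_t (g : Lamp) : (g⁻¹).t = -g.t := rfl

noncomputable instance : Group Lamp := Group.ofLeftAxioms
  (by
    intro a b c
    ext p
    · obtain ⟨x, p⟩ := p
      simp only [mul_v, mul_t, Finsupp.add_apply, sh_apply, add_assoc, sub_add_eq_sub_sub]
    · simp only [mul_t, add_assoc])
  (by
    intro a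
    ext p
    · obtain ⟨x, p⟩ := p
      simp only [mul_v, one_v, one_t, Finsupp.add_apply, sh_apply, sub_zero, Finsupp.zero_apply,
        zero_add]
    · simp only [mul_t, one_t, zero_add])
  (by
    intro a
    ext p
    · obtain ⟨x, p⟩ := p
      simp only [mul_v, one_v, inv_v, inv_t, Finsupp.add_apply, sh_apply, Finsupp.zero_apply,
        Finsupp.neg_apply, neg_add_cancel]
    · simp only [mul_t, inv_t, one_t, neg_add_cancel])

instance : Countable Lamp := by
  have : Function.Injective (fun g : Lamp => (g.v, g.t)) := by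
    intro g h hgh
    rw [Prod.mk.injEq] at hgh
    exact Lamp.ext hgh.1 hgh.2
  exact this.countable

/-- The finite subgroups `E_n` of `T`. -/
noncomputable def E (n : ℕ) : Finset T := (Finset.range n).finsupp (fun _ => Finset.univ)

theorem mem_E {n : ℕ} {t : T} : t ∈ E n ↔ t.support ⊆ Finset.range n := by
  simp [E, Finset.mem_finsupp_iff]

theorem mem_E' {n : ℕ} {t : T} : t ∈ E n ↔ ∀ i, n ≤ i → t i = 0 := by
  rw [mem_E]
  constructor
  · intro h i hi
    by_contra h0
    have := Finset.mem_range.1 (h (Finsupp.mem_support_iff.2 h0))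
    omega
  · intro h i hi
    rw [Finset.mem_range]
    by_contra h0
    exact (Finsupp.mem_support_iff.1 hi) (h i (by omega))

theorem E_add {n : ℕ} {s t : T} (hs : s ∈ E n) (ht : t ∈ E n) : s + t ∈ E n := by
  rw [mem_E'] at *
  intro i hi
  rw [Finsupp.add_apply, hs i hi, ht i hi, add_zero]

theorem E_neg {n : ℕ} {s : T} (hs : s ∈ E n) : -s ∈ E n := by
  rw [mem_E'] at *
  intro i hi
  rw [Finsupp.neg_apply, hs i hi, neg_zero]

theorem E_sub {n : ℕ} {s t : T} (hs : s ∈ E n) (ht : t ∈ E n) : s - t ∈ E n := by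
  rw [sub_eq_add_neg]
  exact E_add hs (E_neg ht)

/-- The finite box of positions. -/
noncomputable def Z (n : ℕ) : Finset Pos := E n ×ˢ (Finset.range n ×ˢ Finset.range n)

/-- The lamp configurations supported in the box. -/
noncomputable def V (n : ℕ) : Finset (Pos →₀ ZMod 2) := (Z n).finsupp (fun _ => Finset.univ)

theorem mem_V {n : ℕ} {v : Pos →₀ ZMod 2} : v ∈ V n ↔ ∀ p, p ∉ Z n → v p = 0 := by
  rw [V, Finset.mem_finsupp_iff]
  constructor
  · intro h p hp
    by_contra h0
    exact hp (h.1 (Finsupp.mem_support_iff.2 h0))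
  · intro h
    refine ⟨?_, fun _ _ => Finset.mem_univ _⟩
    intro p hp
    by_contra h0
    exact (Finsupp.mem_support_iff.1 hp) (h p h0)

theorem V_add {n : ℕ} {s t : Pos →₀ ZMod 2} (hs : s ∈ V n) (ht : t ∈ V n) : s + t ∈ V n := by
  rw [mem_V] at *
  intro i hi
  rw [Finsupp.add_apply, hs i hi, ht i hi, add_zero]

theorem V_sh {n : ℕ} {s : T} {v : Pos →₀ ZMod 2} (hs : s ∈ E n) (hv : v ∈ V n) :
    sh s v ∈ V n := by
  rw [mem_V] at *
  rintro ⟨x, p⟩ hp
  rw [sh_apply]
  apply hv
  intro h
  apply hp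
  rw [Z, Finset.mem_product] at h ⊢
  refine ⟨?_, h.2⟩
  have := E_add h.1 hs
  simpa using this

/-- The parametrization of `Lamp`. -/
noncomputable def emb (y : T) : (Pos →₀ ZMod 2) × T ↪ Lamp :=
  ⟨fun p => ⟨p.1, p.2 + y⟩, by
    intro p q hpq
    have h1 := congrArg Lamp.v hpq
    have h2 := congrArg Lamp.t hpq
    simp only at h1 h2
    exact Prod.ext h1 (add_right_cancel h2)⟩

/-- The Følner sets. -/
noncomputable def K (n : ℕ) (y : T) : Finset Lamp := (V n ×ˢ E n).map (emb y)

theorem mem_K {n : ℕ} {y : T} {g : Lamp} : g ∈ K n y ↔ g.v ∈ V n ∧ g.t - y ∈ E n := by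
  rw [K, Finset.mem_map]
  constructor
  · rintro ⟨p, hp, rfl⟩
    rw [Finset.mem_product] at hp
    show p.1 ∈ V n ∧ p.2 + y - y ∈ E n
    rwa [add_sub_cancel_right]
  · rintro ⟨h1, h2⟩
    exact ⟨(g.v, g.t - y), Finset.mem_product.2 ⟨h1, h2⟩, Lamp.ext rfl (sub_add_cancel _ _)⟩

theorem K_card (n : ℕ) (y : T) : (K n y).card = (V n).card * (E n).card := by
  rw [K, Finset.card_map, Finset.card_product]

theorem K_nonempty (n : ℕ) (y : T) : (K n y).Nonempty := by
  refine ⟨⟨0, y⟩, mem_K.2 ⟨mem_V.2 fun _ _ => rfl, ?_⟩⟩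
  rw [sub_self, mem_E']
  intro _ _
  rfl

theorem K_inv {n : ℕ} {y : T} {h : Lamp} (hh : h ∈ K n 0) :
    (fun x => h * x) '' (K n y : Set Lamp) = (K n y : Set Lamp) := by
  classical
  have hsub : (K n y).image (fun x => h * x) ⊆ K n y := by
    intro g hg
    obtain ⟨x, hx, rfl⟩ := Finset.mem_image.1 hg
    rw [mem_K] at *
    rw [sub_zero] at hh
    refine ⟨V_add hh.1 (V_sh hh.2 hx.1), ?_⟩
    rw [mul_t, add_sub_assoc]
    exact E_add hh.2 hx.2
  have heq : (K n y).image (fun x => h * x) = K n y := by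
    apply Finset.eq_of_subset_of_card_le hsub
    rw [Finset.card_image_of_injective _ (mul_right_injective h)]
  rw [← Finset.coe_image, heq]

theorem exists_n (H : Finset Lamp) : ∃ n, ∀ h ∈ H, h ∈ K n 0 := by
  have hmono : ∀ (m n : ℕ) (h : Lamp), m ≤ n → h ∈ K m 0 → h ∈ K n 0 := by
    intro m n h hmn hh
    rw [mem_K] at *
    have hE : ∀ t, t ∈ E m → t ∈ E n := by
      intro t ht
      rw [mem_E'] at *
      exact fun i hi => ht i (hmn.trans hi)
    refine ⟨?_, hE _ hh.2⟩
    rw [mem_V] at *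
    intro p hp
    apply hh.1
    intro hp2
    apply hp
    simp only [Z, Finset.mem_product, Finset.mem_range] at hp2 ⊢
    exact ⟨hE _ hp2.1, by omega, by omega⟩
  have hone : ∀ h : Lamp, ∃ n, h ∈ K n 0 := by
    intro h
    -- bound for T elements
    have hT : ∀ t : T, ∃ n, t ∈ E n := by
      intro t
      refine ⟨t.support.sup id + 1, mem_E.2 ?_⟩
      intro i hi
      rw [Finset.mem_range]
      have : i ≤ t.support.sup id := Finset.le_sup (f := id) hi
      omega
    obtain ⟨n0, hn0⟩ := hT h.t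
    choose f hf using hT
    let n := max n0 (h.v.support.sup (fun p => max (f p.1) (max (p.2.1 + 1) (p.2.2 + 1))))
    refine ⟨n, mem_K.2 ⟨mem_V.2 ?_, ?_⟩⟩
    · intro p hp
      by_contra h0
      apply hp
      have h1 := Finset.le_sup (f := fun p : Pos => max (f p.1) (max (p.2.1 + 1) (p.2.2 + 1)))
        (Finsupp.mem_support_iff.2 h0)
      have h2 : f p.1 ≤ n := (le_max_left _ _).trans (h1.trans (le_max_right _ _))
      have h3 : p.2.1 + 1 ≤ n :=
        ((le_max_left _ _).trans (le_max_right _ _)).trans (h1.trans (le_max_right _ _))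
      have h4 : p.2.2 + 1 ≤ n :=
        ((le_max_right _ _).trans (le_max_right _ _)).trans (h1.trans (le_max_right _ _))
      simp only [Z, Finset.mem_product, Finset.mem_range]
      refine ⟨?_, by omega, by omega⟩
      have h5 := hf p.1
      rw [mem_E'] at h5 ⊢
      exact fun i hi => h5 i (h2.trans hi)
    · rw [sub_zero]
      rw [mem_E'] at hn0 ⊢
      exact fun i hi => hn0 i ((le_max_left _ _).trans hi)
  choose f hf using hone
  refine ⟨H.sup f, fun h hh => hmono _ _ _ (Finset.le_sup hh) (hf h)⟩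

theorem invariant_of {H : Finset Lamp} {n : ℕ} (hn : ∀ h ∈ H, h ∈ K n 0) {ε : ℝ} (hε : 0 < ε)
    (y : T) : IsInvariant H ε (K n y) := by
  refine ⟨K_nonempty n y, ?_⟩
  intro h hh
  rw [K_inv (hn h hh), symmDiff_self]
  simp only [Set.bot_eq_empty, Set.ncard_empty, Nat.cast_zero]
  have := (K_nonempty n y).card_pos
  positivity

theorem amenable_lamp : Amenable Lamp := by
  intro H ε hε
  obtain ⟨n, hn⟩ := exists_n H
  exact ⟨K n 0, invariant_of hn hε 0⟩

/-- A criterion for lower bounds of the density. -/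
theorem le_density {G : Type} [Group G] (A : Set G) (α : ℝ) (h : ∀ (H : Finset G) (ε : ℝ), 0 < ε →
    ∃ K : Finset G, IsInvariant H ε K ∧ α * (K.card : ℝ) ≤ ((A ∩ (K : Set G)).ncard : ℝ)) :
    α ≤ density A := by
  refine le_csSup ?_ ?_
  swap
  · exact h
  refine ⟨1, ?_⟩
  intro β hβ
  obtain ⟨K, hK, hle⟩ := hβ ∅ 1 one_pos
  have h1 : ((A ∩ (K : Set G)).ncard : ℝ) ≤ K.card := by
    have := Set.ncard_le_ncard (s := A ∩ (K : Set G)) (t := (K : Set G)) Set.inter_subset_right
      (Finset.finite_toSet K)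
    rw [Set.ncard_coe_finset] at this
    exact_mod_cast this
  have h2 : (0 : ℝ) < K.card := by exact_mod_cast hK.1.card_pos
  by_contra hlt
  push Not at hlt
  nlinarith

theorem density_le_one {G : Type} [Group G] (A : Set G) : density A ≤ 1 := by
  by_cases hemp : {α : ℝ | ∀ (H : Finset G) (ε : ℝ), 0 < ε →
    ∃ K : Finset G, IsInvariant H ε K ∧ α * (K.card : ℝ) ≤ ((A ∩ (K : Set G)).ncard : ℝ)}.Nonempty
  · apply csSup_le hemp
    intro β hβ
    obtain ⟨K, hK, hle⟩ := hβ ∅ 1 one_pos
    have h1 : ((A ∩ (K : Set G)).ncard : ℝ) ≤ K.card := by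
      have := Set.ncard_le_ncard (s := A ∩ (K : Set G)) (t := (K : Set G)) Set.inter_subset_right
        (Finset.finite_toSet K)
      rw [Set.ncard_coe_finset] at this
      exact_mod_cast this
    have h2 : (0 : ℝ) < K.card := by exact_mod_cast hK.1.card_pos
    by_contra hlt
    push Not at hlt
    nlinarith
  · rw [Set.not_nonempty_iff_eq_empty] at hemp
    rw [density, hemp, Real.sSup_empty]
    exact zero_le_one

/-- The set `T_A` of elements of `T` whose largest support index is even. -/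
def TA : Set T := {t | ∃ N, Even N ∧ t N = 1 ∧ ∀ M, N < M → t M = 0}

theorem TA_of {n N : ℕ} (hN : n ≤ N) {t : T} (ht : t - Finsupp.single N 1 ∈ E n) :
    t ∈ TA ↔ Even N := by
  rw [mem_E'] at ht
  have h1 : t N = 1 := by
    have := ht N hN
    rw [Finsupp.sub_apply, Finsupp.single_eq_same, sub_eq_zero] at this
    exact this
  have h2 : ∀ M, N < M → t M = 0 := by
    intro M hM
    have := ht M (by omega)
    rw [Finsupp.sub_apply, Finsupp.single_eq_of_ne (by omega), sub_zero] at this
    exact this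
  constructor
  · rintro ⟨N', hN', h3, h4⟩
    rcases lt_trichotomy N N' with h | h | h
    · rw [h2 N' h] at h3
      exact absurd h3 (by decide)
    · rw [h]; exact hN'
    · rw [h4 N h] at h1
      exact absurd h1 (by decide)
  · intro h
    exact ⟨N, h, h1, h2⟩

/-- The set `A`. -/
def A (m : ℕ) : Set Lamp := {g | g.t ∈ TA ∧ ∀ i, ∃ l, l < i + 2 + m ∧ g.v (0, i, l) = 0}

/-- The set `B`. -/
def B : Set Lamp := {g | ∀ s ∈ TA, ∀ i l, g.v (g.t - s, i, l) = 0}

theorem density_B : density B = 1 := by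
  have h1 : (1 : ℝ) ≤ density B := by
    apply le_density
    intro H ε hε
    obtain ⟨n, hn⟩ := exists_n H
    refine ⟨K n (Finsupp.single (2 * n + 1) 1), invariant_of hn hε _, ?_⟩
    have hsub : (K n (Finsupp.single (2 * n + 1) 1) : Set Lamp) ⊆ B := by
      intro g hg s hs i l
      rw [Finset.mem_coe, mem_K] at hg
      apply mem_V.1 hg.1
      intro hp
      rw [Z, Finset.mem_product] at hp
      have h2 : s - Finsupp.single (2 * n + 1) 1 ∈ E n := by
        have : s - Finsupp.single (2 * n + 1) 1 =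
          (g.t - Finsupp.single (2 * n + 1) 1) - (g.t - s) := by abel
        rw [this]
        exact E_sub hg.2 hp.1
      have h3 := (TA_of (by omega) h2).1 hs
      rw [Nat.even_add_one] at h3
      exact h3 (even_two_mul n)
    rw [Set.inter_eq_self_of_subset_right hsub, Set.ncard_coe_finset, one_mul]
  exact le_antisymm (density_le_one B) h1

/-- The number of lamp configurations violating the `i`-th condition. -/
theorem card_bad_aux (m n i : ℕ) (hi : i + 2 + m ≤ n) :
    2 ^ (i + 2 + m) * ((V n).filter (fun v => ∀ l, l < i + 2 + m → v (0, i, l) = 1)).card ≤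
      (V n).card := by
  classical
  let C : Finset (Pos →₀ ZMod 2) :=
    (((Finset.range (i + 2 + m)).map ⟨fun l => ((0 : T), i, l), fun a b h => by
      simpa using h⟩ : Finset Pos)).finsupp (fun _ => Finset.univ)
  have hC : C.card = 2 ^ (i + 2 + m) := by
    rw [Finset.card_finsupp]
    simp
  rw [← hC, ← Finset.card_product]
  apply Finset.card_le_card_of_injOn (fun p => p.1 + p.2)
  · rintro ⟨c, v⟩ hcv
    rw [Finset.mem_coe, Finset.mem_product, Finset.mem_filter] at hcv
    apply V_add _ hcv.2.1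
    rw [mem_V]
    intro p hp
    by_contra h0
    have h1 := ((Finset.mem_finsupp_iff.1 hcv.1).1 (Finsupp.mem_support_iff.2 h0))
    rw [Finset.mem_map] at h1
    obtain ⟨l, hl, hlp⟩ := h1
    have hlp' : ((0 : T), i, l) = p := hlp
    subst hlp'
    apply hp
    simp only [Z, Finset.mem_product, Finset.mem_range]
    rw [Finset.mem_range] at hl
    exact ⟨mem_E'.2 fun _ _ => rfl, by omega, by omega⟩
  · rintro ⟨c, v⟩ hcv ⟨c', v'⟩ hcv' heq
    rw [Finset.mem_coe, Finset.mem_product, Finset.mem_filter] at hcv hcv'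
    simp only at heq
    have hcc : c = c' := by
      ext p
      by_cases hp : p ∈ ((Finset.range (i + 2 + m)).map ⟨fun l => ((0 : T), i, l), fun a b h => by
        simpa using h⟩ : Finset Pos)
      · rw [Finset.mem_map] at hp
        obtain ⟨l, hl, hlp⟩ := hp
        have hlp' : ((0 : T), i, l) = p := hlp
        subst hlp'
        rw [Finset.mem_range] at hl
        have h1 := DFunLike.congr_fun heq ((0 : T), i, l)
        rw [Finsupp.add_apply, Finsupp.add_apply, hcv.2.2 l hl, hcv'.2.2 l hl] at h1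
        exact add_right_cancel h1
      · have h1 : c p = 0 := by
          by_contra h0
          exact hp ((Finset.mem_finsupp_iff.1 hcv.1).1 (Finsupp.mem_support_iff.2 h0))
        have h2 : c' p = 0 := by
          by_contra h0
          exact hp ((Finset.mem_finsupp_iff.1 hcv'.1).1 (Finsupp.mem_support_iff.2 h0))
        rw [h1, h2]
    subst hcc
    rw [Prod.mk.injEq]
    exact ⟨rfl, add_left_cancel heq⟩

/-- The configurations violating the `i`-th condition. -/
noncomputable def bad (m n i : ℕ) : Finset (Pos →₀ ZMod 2) :=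
  (V n).filter (fun v => ∀ l, l < i + 2 + m → v (0, i, l) = 1)

theorem card_bad (m n i : ℕ) : ((bad m n i).card : ℝ) ≤ (1 / 2) ^ (i + 2 + m) * (V n).card := by
  by_cases hi : i + 2 + m ≤ n
  · have h1 := card_bad_aux m n i hi
    have h2 : (2 : ℝ) ^ (i + 2 + m) * ((bad m n i).card : ℝ) ≤ (V n).card := by
      exact_mod_cast h1
    have h3 : ((1 : ℝ) / 2) ^ (i + 2 + m) * 2 ^ (i + 2 + m) = 1 := by
      rw [← mul_pow]; norm_num
    calc ((bad m n i).card : ℝ)
        = ((1 : ℝ) / 2) ^ (i + 2 + m) * (2 ^ (i + 2 + m) * ((bad m n i).card : ℝ)) := by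
          rw [← mul_assoc, h3, one_mul]
      _ ≤ _ := by gcongr
  · have h1 : bad m n i = ∅ := by
      rw [bad, Finset.filter_eq_empty_iff]
      intro v hv hl
      have h2 := hl n (by omega)
      rw [mem_V.1 hv _ (by simp [Z])] at h2
      exact absurd h2 (by decide)
    rw [h1]
    simp only [Finset.card_empty, Nat.cast_zero]
    positivity

theorem sum_half (m n : ℕ) : ∑ i ∈ Finset.range n, ((1 : ℝ) / 2) ^ (i + 2 + m) =
    (1 / 2) ^ (m + 1) - (1 / 2) ^ (n + 1 + m) := by
  induction n with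
  | zero => simp [add_comm]
  | succ n ih =>
    rw [Finset.sum_range_succ, ih]
    ring

theorem density_A (m : ℕ) : 1 - (1 / 2) ^ (m + 1) ≤ density (A m) := by
  classical
  apply le_density
  intro H ε hε
  obtain ⟨n, hn⟩ := exists_n H
  refine ⟨K n (Finsupp.single (2 * n) 1), invariant_of hn hε _, ?_⟩
  let Good : Finset (Pos →₀ ZMod 2) :=
    (V n).filter (fun v => ∀ i, ∃ l, l < i + 2 + m ∧ v (0, i, l) = 0)
  have hsub : (((Good ×ˢ E n).map (emb (Finsupp.single (2 * n) 1)) : Finset Lamp) : Set Lamp) ⊆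
      A m ∩ (K n (Finsupp.single (2 * n) 1) : Set Lamp) := by
    intro g hg
    rw [Finset.mem_coe, Finset.mem_map] at hg
    obtain ⟨p, hp, rfl⟩ := hg
    rw [Finset.mem_product] at hp
    have hp1 := Finset.mem_filter.1 hp.1
    refine ⟨⟨?_, hp1.2⟩, ?_⟩
    · refine (TA_of (n := n) (N := 2 * n) (by omega) ?_).2 (even_two_mul n)
      show p.2 + Finsupp.single (2 * n) 1 - Finsupp.single (2 * n) 1 ∈ E n
      rw [add_sub_cancel_right]
      exact hp.2
    · rw [Finset.mem_coe, K, Finset.mem_map]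
      exact ⟨p, Finset.mem_product.2 ⟨hp1.1, hp.2⟩, rfl⟩
  have hcard : (Good.card * (E n).card : ℝ) ≤
      ((A m ∩ (K n (Finsupp.single (2 * n) 1) : Set Lamp)).ncard : ℝ) := by
    have h1 := Set.ncard_le_ncard hsub
      (Set.Finite.subset (Finset.finite_toSet _) Set.inter_subset_right)
    rw [Set.ncard_coe_finset, Finset.card_map, Finset.card_product] at h1
    exact_mod_cast h1
  refine le_trans ?_ hcard
  rw [K_card]
  have hV : ((V n).card : ℝ) ≤ Good.card + (1 / 2) ^ (m + 1) * (V n).card := by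
    have h1 : V n ⊆ Good ∪ (Finset.range n).biUnion (bad m n) := by
      intro v hv
      rw [Finset.mem_union]
      by_cases hg : ∀ i, ∃ l, l < i + 2 + m ∧ v (0, i, l) = 0
      · exact Or.inl (Finset.mem_filter.2 ⟨hv, hg⟩)
      · right
        push Not at hg
        obtain ⟨i, hi⟩ := hg
        have hin : i < n := by
          by_contra hge
          apply hi 0 (by omega)
          apply mem_V.1 hv
          simp only [Z, Finset.mem_product, Finset.mem_range]
          rintro ⟨_, h2, _⟩
          omega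
        refine Finset.mem_biUnion.2 ⟨i, Finset.mem_range.2 hin, Finset.mem_filter.2 ⟨hv, ?_⟩⟩
        intro l hl
        have h3 : ∀ a : ZMod 2, a ≠ 0 → a = 1 := by decide
        exact h3 _ (hi l hl)
    have h2 := (Finset.card_le_card h1).trans (Finset.card_union_le _ _)
    have h3 : ((V n).card : ℝ) ≤ Good.card + ((Finset.range n).biUnion (bad m n)).card := by
      exact_mod_cast h2
    have h4 : (((Finset.range n).biUnion (bad m n)).card : ℝ) ≤
        ∑ i ∈ Finset.range n, ((bad m n i).card : ℝ) := by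
      exact_mod_cast (Finset.card_biUnion_le (s := Finset.range n) (t := bad m n))
    have h5 : ∑ i ∈ Finset.range n, ((bad m n i).card : ℝ) ≤
        ∑ i ∈ Finset.range n, ((1 : ℝ) / 2) ^ (i + 2 + m) * (V n).card :=
      Finset.sum_le_sum fun i _ => card_bad m n i
    rw [← Finset.sum_mul, sum_half] at h5
    have h6 : (0 : ℝ) ≤ (1 / 2) ^ (n + 1 + m) * (V n).card := by positivity
    have h7 : (((1 : ℝ) / 2) ^ (m + 1) - (1 / 2) ^ (n + 1 + m)) * (V n).card =
      (1 / 2) ^ (m + 1) * (V n).card - (1 / 2) ^ (n + 1 + m) * (V n).card := by ring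
    linarith
  have hE : (0 : ℝ) ≤ (E n).card := by positivity
  push_cast
  nlinarith [mul_le_mul_of_nonneg_right hV hE]

theorem not_thick (m : ℕ) (F : Finset Lamp) :
    ¬ Thick {y | ∃ f ∈ F, ∃ a ∈ mulInv (A m) B, y = f * a} := by
  classical
  intro hthick
  let φ : ℕ → Lamp := fun i => F.toList.getD i 1
  let Z' : Finset Pos := (Finset.range F.toList.length).biUnion
    (fun i => (Finset.range (i + 2 + m)).image (fun l => ((φ i).t, i, l)))
  let H : Finset Lamp := (Z'.finsupp (fun _ => (Finset.univ : Finset (ZMod 2)))).image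
    (fun w => ⟨w, 0⟩)
  obtain ⟨x, hx⟩ := hthick H
  let w : Pos →₀ ZMod 2 := Finsupp.onFinset Z'
    (fun z => if z ∈ Z' then (φ z.2.1).v z + 1 - x.v z else 0) (by
      intro z hz
      by_contra h
      exact hz (if_neg h))
  have hw : (⟨w, 0⟩ : Lamp) ∈ H := by
    apply Finset.mem_image_of_mem
    rw [Finset.mem_finsupp_iff]
    exact ⟨Finsupp.support_onFinset_subset, fun _ _ => Finset.mem_univ _⟩
  obtain ⟨f, hf, g, ⟨a, ha, b, hb, rfl⟩, he⟩ := hx _ hw
  obtain ⟨i, hi, hif⟩ := List.getElem_of_mem (Finset.mem_toList.2 hf)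
  have hφ : φ i = f := by
    show F.toList.getD i 1 = f
    rw [List.getD_eq_getElem _ _ hi, hif]
  obtain ⟨l, hl, hal⟩ := ha.2 i
  have hz : (f.t, i, l) ∈ Z' := by
    apply Finset.mem_biUnion.2
    refine ⟨i, Finset.mem_range.2 hi, Finset.mem_image.2 ⟨l, Finset.mem_range.2 hl, ?_⟩⟩
    rw [hφ]
  have h1 := DFunLike.congr_fun (congrArg Lamp.v he) (f.t, i, l)
  have h2 : (((⟨w, 0⟩ : Lamp) * x).v) (f.t, i, l) = f.v (f.t, i, l) + 1 := by
    rw [mul_v, Finsupp.add_apply, sh_apply]
    show (if (f.t, i, l) ∈ Z' then (φ i).v (f.t, i, l) + 1 - x.v (f.t, i, l) else 0) +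
      x.v (f.t - 0, i, l) = _
    rw [if_pos hz, hφ, sub_zero]
    ring
  have h3 : (f * (a * b⁻¹)).v (f.t, i, l) = f.v (f.t, i, l) := by
    rw [mul_v, Finsupp.add_apply, sh_apply, sub_self, mul_v, Finsupp.add_apply, hal, sh_apply,
      inv_v, Finsupp.neg_apply, sh_apply]
    have h4 := hb a.t ha.1 i l
    have h5 : (0 - a.t - -b.t) = b.t - a.t := by abel
    rw [h5, h4]
    ring
  rw [h2, h3] at h1
  have h6 : ∀ a : ZMod 2, a + 1 ≠ a := by decide
  exact h6 _ h1

theorem not_piecewise (m k : ℕ) : ¬ PiecewiseSyndetic k (mulInv (A m) B) := by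
  rintro ⟨F, _, hF⟩
  exact not_thick m F hF

end group

/-- Q1 is false in a strong sense: for every `δ > 0` there are a countable amenable group and
subsets `A`, `B` with `d(A) > 1 - δ` and `d(B) = 1` such that `A B⁻¹` is not piecewise
`k`-syndetic for any `k`. -/
theorem result :
    ¬ Q1 ∧ ∀ δ : ℝ, 0 < δ → ∃ (G : Type) (_ : Group G), Countable G ∧ Amenable G ∧
      ∃ A B : Set G, 1 - δ < density A ∧ density B = 1 ∧
        ∀ k : ℕ, ¬ PiecewiseSyndetic k (mulInv A B) := by
  constructor
  · intro h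
    have hA := density_A 0
    exact not_piecewise 0 _ (h Lamp amenable_lamp (A 0) B (by norm_num at hA; linarith)
      (by rw [density_B]; exact one_pos))
  · intro δ hδ
    obtain ⟨m, hm⟩ := exists_pow_lt_of_lt_one hδ (show (1 / 2 : ℝ) < 1 by norm_num)
    refine ⟨Lamp, inferInstance, inferInstance, amenable_lamp, A m, B, ?_, density_B,
      not_piecewise m⟩
    have h1 := density_A m
    have h2 : ((1 : ℝ) / 2) ^ (m + 1) ≤ (1 / 2) ^ m :=
      pow_le_pow_of_le_one (by norm_num) (by norm_num) (by omega)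
    linarith

end Pool.Agent.Results.MP_b01501_co.NotPiecewiseSyndetic
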